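import Pool.Agent.Q98.LA.Fib

set_option autoImplicit false

/-!
# Linear arboricity of fibred graphs and direct products

`H931R3.LA.la G` is the linear arboricity (the same expression as in the frozen statement S07085).

A graph `G` on `V` with a map `f : V → W` is compared with a loopless multigraph on `W` given as a
family of graphs `H i` of maximum degree two on `W`, repetitions being allowed: every vertex `u` has
at most as many neighbours in the fibre over `j` as there are indices `i` for which `f u` and `j`
are adjacent in `H i`.  Short cycles (of length four) are unavoidable in such graphs `G`.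

Idea of the proof.  From each cycle of each `H i` one edge is removed; the removed edges must form a
linear forest in the sense of multigraphs (so no edge is removed from two of the `H i`).  They are
found by rounding a fractional selection.  This gives one more linear forest on `W`, and the
`N + 1` linear forests on `W` cover every edge with the right multiplicity.  By König's theorem the
edges of `G` between two fibres are split into matchings, which lifts the linear forests to `G`.
-/

namespace Pool.Agent.Results.MP_0a041d_co.FibredGraphs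

open SimpleGraph H931R3.LA Pool.Agent.Q98.LA

open Classical in
/-- **Linear arboricity of fibred graphs.**

(1) The criterion: `G` is fibred over the multigraph of the `N` graphs `H i` of maximum degree two,
and for every `w` the sum of `2 / c`, over the `i` for which the component of `w` in `H i` is a cycle
(`c` its length), is at most one.  Then `la G ≤ N + 1`, with equality if `G` is `2 N`-regular.
(2) `X` has maximum degree at most `2 k` and all its cycles have length at least `2 m`; every edge of
`G` lies over an edge of `X` and every vertex has at most `β` neighbours in each fibre.  Then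
`la G ≤ k β + ⌈k β / m⌉`.  If `G` is `2 k β`-regular and `k β ≤ m` then the linear arboricity
conjecture holds for `G`.
(3) The linear arboricity conjecture holds for the direct product `X × H` if `X` is regular of even
degree, `H` is regular, and all cycles of `X` have length at least `deg X * deg H`.
(4) The vertices of `G` are labelled by the elements of a finite group `Γ`, every vertex with label
`g` has at most `β s` neighbours with label `g s`, where `β s = β s⁻¹`, `β s = 0` if `s ^ 2 = 1`,
and `∑ β s / ord s ≤ 1`.  Then `la G ≤ (∑ β s) / 2 + 1`, and the linear arboricity conjecture holds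
for `G` if `G` is regular of degree `∑ β s`.
(5) The vertices of `G` are labelled by the residues modulo an odd prime `p`, every vertex with
label `i` has exactly `β d` neighbours with label `i + d`, where `β 0 = 0`, `β d = β (- d)`, and
`G`, which is regular of degree `D = ∑ β d > 0`, satisfies `D ≤ p`.  Then the linear arboricity
conjecture holds for `G`. -/
theorem result :
    (∀ (V W κ : Type) [Finite V] [Nonempty V] [Finite W] [Fintype κ] (H : κ → SimpleGraph W)
      (G : SimpleGraph V) (f : V → W), (∀ i w, ((H i).neighborSet w).ncard ≤ 2) →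
      (∀ w, ∑ i, (if ∀ w', (H i).Reachable w w' → ((H i).neighborSet w').ncard = 2 then
        (2 : ℝ) / {w' | (H i).Reachable w w'}.ncard else 0) ≤ 1) →
      (∀ u j, {v | G.Adj u v ∧ f v = j}.ncard ≤ {i | (H i).Adj (f u) j}.ncard) →
      la G ≤ Fintype.card κ + 1 ∧
      (0 < Fintype.card κ → (∀ v, (G.neighborSet v).ncard = 2 * Fintype.card κ) →
        la G = Fintype.card κ + 1)) ∧
    (∀ (V W : Type) [Finite V] [Nonempty V] [Finite W] (X : SimpleGraph W) (G : SimpleGraph V)
      (f : V → W) (k m β : ℕ), 1 ≤ m → (∀ w, (X.neighborSet w).ncard ≤ 2 * k) →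
      (∀ (w : W) (c : X.Walk w w), c.IsCycle → 2 * m ≤ c.length) →
      (∀ u v, G.Adj u v → X.Adj (f u) (f v)) →
      (∀ u j, {v | G.Adj u v ∧ f v = j}.ncard ≤ β) →
      la G ≤ k * β + (k * β + m - 1) / m ∧
      (0 < k * β → k * β ≤ m → (∀ v, (G.neighborSet v).ncard = 2 * k * β) →
        la G = (2 * k * β + 2) / 2)) ∧
    (∀ (W Y : Type) [Finite W] [Nonempty W] [Finite Y] [Nonempty Y] (X : SimpleGraph W)
      (H : SimpleGraph Y) (G : SimpleGraph (W × Y)) (k s : ℕ), 0 < k → 0 < s →
      (∀ p q, G.Adj p q ↔ X.Adj p.1 q.1 ∧ H.Adj p.2 q.2) →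
      (∀ w, (X.neighborSet w).ncard = 2 * k) → (∀ y, (H.neighborSet y).ncard = s) →
      (∀ (w : W) (c : X.Walk w w), c.IsCycle → 2 * k * s ≤ c.length) →
      (∀ p, (G.neighborSet p).ncard = 2 * k * s) ∧ la G = (2 * k * s + 2) / 2) ∧
    (∀ (Γ V : Type) [Group Γ] [Fintype Γ] [Finite V] [Nonempty V] (β : Γ → ℕ)
      (G : SimpleGraph V) (f : V → Γ), (∀ s, β s⁻¹ = β s) → (∀ s, s * s = 1 → β s = 0) →
      ∑ s, (β s : ℝ) / orderOf s ≤ 1 →
      (∀ u s, {v | G.Adj u v ∧ f v = f u * s}.ncard ≤ β s) →
      la G ≤ (∑ s, β s) / 2 + 1 ∧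
      (0 < ∑ s, β s → (∀ v, (G.neighborSet v).ncard = ∑ s, β s) →
        la G = (∑ s, β s + 2) / 2)) ∧
    (∀ (p : ℕ) [NeZero p] (V : Type) [Finite V] [Nonempty V] (β : ZMod p → ℕ)
      (G : SimpleGraph V) (f : V → ZMod p), p.Prime → p ≠ 2 → (∀ d, β (-d) = β d) → β 0 = 0 →
      (∀ u d, {v | G.Adj u v ∧ f v = f u + d}.ncard = β d) → 0 < ∑ d, β d → ∑ d, β d ≤ p →
      (∀ v, (G.neighborSet v).ncard = ∑ d, β d) ∧ la G = (∑ d, β d + 2) / 2) := by
  refine ⟨?_, ?_, ?_, ?_, ?_⟩
  · intro V W κ _ _ _ _ H G f hdeg hload hG
    have h1 := la_fib (cov_fib H hdeg hload G f hG)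
    exact ⟨h1.1, h1.2 inferInstance⟩
  · intro V W _ _ _ X G f k m β hm hdeg hcyc hom hβ
    have h1 := cov_fib_girth X k m β hm hdeg hcyc G f hom hβ
    refine ⟨la_le h1, fun h0 hkm hreg => ?_⟩
    have h2 : (k * β + m - 1) / m = 1 := by
      rw [Nat.div_eq_of_lt_le] <;> omega
    rw [h2] at h1
    have h3 := (la_fib h1).2 inferInstance h0 (fun v => by rw [hreg v]; ring)
    have h4 : 2 * k * β = 2 * (k * β) := by ring
    rw [h3, h4]
    omega
  · intro W Y _ _ _ _ X H G k s hk hs hG hX hH hcyc
    have hdeg : ∀ p, (G.neighborSet p).ncard = 2 * k * s := fun p => by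
      rw [deg_direct X H G hG p, hX, hH]
    refine ⟨hdeg, ?_⟩
    have hks : 0 < k * s := Nat.mul_pos hk hs
    have h4 : 2 * k * s = 2 * (k * s) := by ring
    have h1 := cov_fib_girth X k (k * s) s hks (fun w => (hX w).le)
      (fun w c hc => by have := hcyc w c hc; omega) G (fun p => p.1)
      (fun p q h => ((hG p q).1 h).1) (fun p j => by
        rw [← hH p.2]
        refine le_trans ?_ (Set.ncard_image_le (f := fun y => (j, y))
          (Set.toFinite (H.neighborSet p.2)))
        refine Set.ncard_le_ncard ?_ (Set.toFinite _)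
        rintro ⟨q1, q2⟩ ⟨h, h'⟩
        exact ⟨q2, ((hG _ _).1 h).2, Prod.ext h'.symm rfl⟩)
    have h2 : (k * s + k * s - 1) / (k * s) = 1 := by
      rw [Nat.div_eq_of_lt_le] <;> omega
    rw [h2] at h1
    have h3 := (la_fib h1).2 inferInstance hks (fun v => by rw [hdeg v]; ring)
    rw [h3, h4]
    omega
  · intro Γ V _ _ _ _ β G f hinv hno hsum hβ
    have h1 := cov_label β hinv hno hsum G f hβ
    refine ⟨la_le h1, fun h0 hreg => ?_⟩
    have h2 : (∑ s, β s) / 2 + 1 = (∑ s, β s + 2) / 2 := by omega
    rw [h2] at h1
    exact Pool.Agent.W111.LAR.la_eq_of_cov h0 hreg h1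
  · intro p _ V _ _ β G f hp h2 hneg h0 hβ hpos hsum
    have h1 : Cov G ((∑ d, β d) / 2 + 1) := by
      have := cov_label_prime p hp h2 β hneg h0 G f (fun u d => (hβ u d).le) (by
        convert hsum)
      convert this
    have hreg : ∀ v, (G.neighborSet v).ncard = ∑ d, β d := by
      intro v
      have := Fintype.ofFinite V
      have e : (G.neighborFinset v).card = ∑ d, ((G.neighborFinset v).filter
          (fun w => f w - f v = d)).card :=
        Finset.card_eq_sum_card_fiberwise fun w _ => Finset.mem_coe.2 (Finset.mem_univ _)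
      rw [Set.ncard_eq_toFinset_card', ← SimpleGraph.neighborFinset, e]
      refine Finset.sum_congr rfl fun d _ => ?_
      rw [← hβ v d, Set.ncard_eq_toFinset_card']
      congr 1
      ext w
      rw [Finset.mem_filter, Set.mem_toFinset, SimpleGraph.mem_neighborFinset]
      exact ⟨fun h => ⟨h.1, by rw [← h.2]; ring⟩, fun h => ⟨h.1, by rw [h.2]; ring⟩⟩
    refine ⟨hreg, ?_⟩
    have h3 : (∑ d, β d) / 2 + 1 = (∑ d, β d + 2) / 2 := by omega
    rw [h3] at h1
    exact Pool.Agent.W111.LAR.la_eq_of_cov hpos hreg h1

end Pool.Agent.Results.MP_0a041d_co.FibredGraphs
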