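import Pool.Agent.Q264.LAL.Cor

/-!
# Linear arboricity of lexicographic products and their generalisations

`H931R3.LA.la G` is the linear arboricity, the least number of linear forests (acyclic, all degrees
at most two) whose union is `G`.

`subst G H` (usually written `G[H_v : v]`) has the vertex set `V × Fin m`; a copy of the graph `H v`
is put on the fibre of every vertex `v` of `G`, and the fibres of adjacent vertices are completely
joined.  If all the `H v` are equal to `H` this is the lexicographic product `G[H]`; for the
complete graph `H = K_m` it is the strong product of `G` and `K_m`.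

Method: the two-factorisation of the blow-up `G[m]` with long cycles (amalgamation and detachment,
`Pool.Agent.Q251.LA`, made for the blow-ups of `MP_0a041d_co.BlowUps`) is put together with
two-factors of the inner graphs, whose cycles are short (at most `m` vertices); one edge is taken
out of every cycle by the weighted selection theorem of `Pool.Agent.W111.LAR`.
-/

set_option autoImplicit false

namespace Pool.Agent.Results.MP_0a041d_co.LexicographicProducts

open SimpleGraph H931R3.LA Pool.Agent.Q264.LAL Finset

theorem moore_two (δ : ℕ) (h : 1 ≤ δ) : moore δ 2 = 1 + δ ^ 2 := by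
  obtain ⟨e, rfl⟩ := Nat.exists_eq_add_of_le' h
  simp [moore, sum_range_succ]
  ring

open Classical in
/-- **The linear arboricity conjecture for generalised lexicographic products.**
Let `G` be a finite `r`-regular graph, `r ≥ 1`, let `m ≥ 1` with `r m` even, let all cycles of `G`
be longer than `2 d`, and put `M = 1 + δ (1 + (δ - 1) + ⋯ + (δ - 1)^(d - 1))` with
`δ = min (2 m, r)` for even `r` and `δ = min (m, r)` for odd `r` (so `M = δ + 1` for `d = 1`, when
nothing is assumed about the cycles).

(1) Let `t ≥ 1`, and let every `H v` be a `2 t`-regular graph with vertices `Fin m` which is the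
union of `t` spanning `2`-regular graphs `F v i`, such that for every vertex `y` the sum over `i` of
`2 / (length of the cycle of F v i through y)` is at most `1 - r / M`.  Then the graph
`G[H v : v ∈ V]` is regular of degree `r m + 2 t` and its linear arboricity is
`⌈(r m + 2 t + 1) / 2⌉`.

(2) The same holds for all `2 t`-regular graphs `H v`, `t ≥ 1`, all of whose cycles have length at
least `g ≥ 1`, if `2 t / g + r / M ≤ 1`.

(3) The same holds for `G[K_m]` if `r` is even, `m ≥ 3` is odd and `r m ≤ M`; for instance, if `G`
has no triangles and no cycles of length four, `r` is even, `m ≥ 3` is odd and `m ≤ r ≤ 4 m`.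

(4) The same holds for `G[C_m]` if `m ≥ 2 r + 2`, for every `G`. -/
theorem result (V : Type) [Finite V] [Nonempty V] (G : SimpleGraph V) (r m d : ℕ) (hr : 0 < r)
    (hm : 0 < m) (hreg : ∀ v, (G.neighborSet v).ncard = r) (hpar : Even r ∨ Even m)
    (hcyc : ∀ (v : V) (c : G.Walk v v), c.IsCycle → 2 * d < c.length) :
    (∀ (t : ℕ) (F : V → Fin t → SimpleGraph (Fin m)), 0 < t →
      (∀ v i y, ((F v i).neighborSet y).ncard = 2) →
      (∀ v y, ((⨆ i, F v i).neighborSet y).ncard = 2 * t) →
      (∀ v y, ∑ i, (2 : ℝ) / {z | (F v i).Reachable y z}.ncard +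
        (r : ℝ) / moore (if Even r then min (2 * m) r else min m r) d ≤ 1) →
      (∀ x, ((subst G (fun v => ⨆ i, F v i)).neighborSet x).ncard = r * m + 2 * t) ∧
      la (subst G (fun v => ⨆ i, F v i)) = (r * m + 2 * t + 2) / 2) ∧
    (∀ (t g : ℕ) (H : V → SimpleGraph (Fin m)), 0 < t → 0 < g →
      (∀ v y, ((H v).neighborSet y).ncard = 2 * t) →
      (∀ v y (c : (H v).Walk y y), c.IsCycle → g ≤ c.length) →
      (2 * t : ℝ) / g + (r : ℝ) / moore (if Even r then min (2 * m) r else min m r) d ≤ 1 →
      (∀ x, ((subst G H).neighborSet x).ncard = r * m + 2 * t) ∧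
      la (subst G H) = (r * m + 2 * t + 2) / 2) ∧
    (Even r → Odd m → 3 ≤ m → (r * m ≤ moore (min (2 * m) r) d ∨
        (2 ≤ d ∧ m ≤ r ∧ r ≤ 4 * m)) →
      (∀ x, ((subst G (fun _ => (⊤ : SimpleGraph (Fin m)))).neighborSet x).ncard =
        r * m + (m - 1)) ∧
      la (subst G (fun _ => (⊤ : SimpleGraph (Fin m)))) = (r * m + (m - 1) + 2) / 2) ∧
    (2 * r + 2 ≤ m →
      (∀ x, ((subst G (fun _ => cycleGraph m)).neighborSet x).ncard = r * m + 2) ∧
      la (subst G (fun _ => cycleGraph m)) = (r * m + 4) / 2) := by
  refine ⟨fun t F _ hF hF' hload => ⟨subst_deg G r (2 * t) m hreg _ hF',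
      subst_la G r m d t hr hm hreg hpar hcyc F hF hF' hload⟩,
    fun t g H _ hg hH hHg hload => ⟨subst_deg G r (2 * t) m hreg _ hH,
      girth_la G r m d t g hr hm hg hreg hpar hcyc H hH hHg hload⟩,
    fun he ho hm3 h => ?_, fun hm2 => cycle_la G r m hr hm2 hreg hpar⟩
  rcases h with h | ⟨h1, h2, h3⟩
  · exact complete_la G r m d hr hm3 ho hreg he hcyc h
  · refine complete_la G r m 2 hr hm3 ho hreg he (fun v c hc => ?_) ?_
    · have := hcyc v c hc
      omega
    · rw [moore_two _ (by omega)]
      rcases le_total (2 * m) r with h4 | h4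
      · rw [min_eq_left h4]
        nlinarith
      · rw [min_eq_right h4]
        nlinarith

end Pool.Agent.Results.MP_0a041d_co.LexicographicProducts
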