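import Pool.Agent.Q251.LO.Top

/-!
# Linear arboricity of blow-ups of odd degree
-/

set_option autoImplicit false

namespace Pool.Agent.Results.MP_0a041d_co.OddBlowUps

open SimpleGraph H931R3.LA

/-- The blow-up of `G`: every vertex `v` is replaced by `m` independent vertices `(v, i)`, and
`(v, i)`, `(w, j)` are adjacent if and only if `v` and `w` are. -/
def blowUp {V : Type} (G : SimpleGraph V) (m : ℕ) : SimpleGraph (V × Fin m) := G.comap Prod.fst

theorem blow_deg {V : Type} [Finite V] (G : SimpleGraph V) (r m : ℕ)
    (hreg : ∀ v, (G.neighborSet v).ncard = r) (x : V × Fin m) :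
    ((blowUp G m).neighborSet x).ncard = r * m := by
  have h1 : (blowUp G m).neighborSet x = G.neighborSet x.1 ×ˢ (Set.univ : Set (Fin m)) := by
    ext y
    simp [blowUp]
  rw [h1, Set.ncard_prod, hreg, Set.ncard_univ, Nat.card_eq_fintype_card, Fintype.card_fin]

/-- **The linear arboricity conjecture for blow-ups of odd degree.**
Let `r` and `m ≥ r` be odd, let `G` be an `r`-regular graph all of whose components have at least
`6 r` vertices, and let `G[m]` be the graph obtained by replacing every vertex by `m` independent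
vertices.  Then `G[m]` is `r m`-regular and `la (G[m]) = (r m + 1) / 2`.

Proof idea: the `m²`-fold multiple graph on `G` is coloured with one class of degree `m` and
`(r m - 1) / 2` classes of degree `2 m` that contain every edge of `G`, and its vertices are detached
one after the other, keeping the classes balanced and the large classes connected.  So `G[m]` is the
union of a perfect matching and of 2-factors with cycles of length at least `6 r m`. -/
theorem result (V : Type) [Finite V] [Nonempty V] (G : SimpleGraph V) (r m : ℕ) (hr : Odd r)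
    (hm : Odd m) (hrm : r ≤ m) (hreg : ∀ v, (G.neighborSet v).ncard = r)
    (hcomp : ∀ v, 6 * r ≤ {w | G.Reachable v w}.ncard) :
    (∀ x, ((blowUp G m).neighborSet x).ncard = r * m) ∧ 2 * la (blowUp G m) = r * m + 1 := by
  refine ⟨blow_deg G r m hreg, ?_⟩
  obtain ⟨κ, hκ⟩ := hr.mul hm
  obtain ⟨t, ht⟩ : ∃ t, m = r + 2 * t := by
    obtain ⟨a, ha⟩ := hr
    obtain ⟨b, hb⟩ := hm
    exact ⟨b - a, by omega⟩
  have hr0 : 0 < r := hr.pos
  have hm0 : 0 < m := hm.pos
  have hne : Nonempty (V × Fin m) := ⟨(Classical.arbitrary V, ⟨0, hm0⟩)⟩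
  have h1 : Cov (blowUp G m) (κ + 1) :=
    Pool.Agent.Q251.LO.covO G r m κ t hr0 ht hκ hreg hcomp
  have h2 : (r * m + 2) / 2 = κ + 1 := by omega
  rw [← h2] at h1
  have h3 := Pool.Agent.W111.LAR.la_eq_of_cov (Nat.mul_pos hr0 hm0) (blow_deg G r m hreg) h1
  rw [h3]
  omega

end Pool.Agent.Results.MP_0a041d_co.OddBlowUps
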